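import Pool.Agent.E8helper3.CH.Par

/-!
# Parshin's conjecture and affine cubic hypersurfaces

`CThy F` are the standard properties of the groups `H X a b = H_c^a(X, ℚ(b))`, the motivic cohomology
with compact support of separated schemes of finite type over the finite field `F`. `InJ True X` says
that `X` carries an affine bundle with affine total space (this is true for all quasi-projective `X`
by Jouanolou). `cub g` is the smooth hypersurface `∑ yₖ gₖ(x) = 1` of dimension `dmc n κ`, and `sng g`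
is the hypersurface `∑ yₖ gₖ(x) = 0`.
-/

set_option autoImplicit false

open AlgebraicGeometry MvPolynomial
open Pool.Agent.R904.CU Pool.Agent.Y116.UV Pool.Agent.E8helper3.CH

namespace Pool.Agent.Results.MP_de59b4_ag.CompactSupportCubicsH3

theorem result (F : Type) [Field F] [Finite F] (𝒯 : CThy F) :
    -- Parshin's conjecture, for smooth projective schemes: given the equivalence which is listed as
    -- known, it is equivalent to the vanishing of `H_c^{2n}(H, ℚ(n))`, `n ≠ dim H`, for the smooth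
    -- cubic hypersurfaces `H` of the form `∑ yₖ gₖ(x) = 1`, and to the vanishing of
    -- `H_c^{2n-1}(V, ℚ(n))` for the hypersurfaces `V` of the form `∑ yₖ gₖ(x) = 0`
    (∀ SmoothProjective : Sch F → Prop,
      (∀ n : ℤ, (∀ X, SmoothProjective X → ∀ i : ℤ, i ≠ 2 * n → Subsingleton (𝒯.H X i n)) ↔
        ∀ X : Sch F, FT True X → ∀ i : ℤ, i < 2 * n → Subsingleton (𝒯.H X i n)) →
      ((∀ n : ℤ, 2 ≤ n → ∀ X, SmoothProjective X → ∀ i : ℤ, i ≠ 2 * n →
          Subsingleton (𝒯.H X i n)) ↔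
        ∀ (s : ℕ) (κ : Type) [Fintype κ] (g : κ → MvPolynomial (Fin s) F),
          (∀ k, (g k).totalDegree ≤ 2) → ∀ n : ℤ, n ≠ dmc s κ →
            Subsingleton (𝒯.H (cub g) (2 * n) n)) ∧
      ((∀ n : ℤ, 2 ≤ n → ∀ X, SmoothProjective X → ∀ i : ℤ, i ≠ 2 * n →
          Subsingleton (𝒯.H X i n)) ↔
        ∀ (s : ℕ) (κ : Type) [Fintype κ] (g : κ → MvPolynomial (Fin s) F),
          (∀ k, (g k).totalDegree ≤ 2) → ∀ n : ℤ, Subsingleton (𝒯.H (sng g) (2 * n - 1) n))) ∧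
    -- the same for the vanishing of `H_c^i(X, ℚ(n))`, `i < 2n`, for all schemes `X`
    ((∀ n : ℤ, 2 ≤ n → 𝒯.P n) ↔ 𝒯.Cub) ∧ ((∀ n : ℤ, 2 ≤ n → 𝒯.P n) ↔ 𝒯.Sng) ∧
    -- each single variety and weight
    (∀ X : Sch F, InJ True X → ∀ n : ℤ,
      ∃ (s : ℕ) (κ : Type) (_ : Fintype κ) (g : κ → MvPolynomial (Fin s) F) (n' : ℤ),
        (∀ k, (g k).totalDegree ≤ 2) ∧ ((∀ i : ℤ, i < 2 * n → Subsingleton (𝒯.H X i n)) ↔
          ∀ i : ℤ, i ≤ 2 * n' → Subsingleton (𝒯.H (cub g) i n'))) ∧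
    -- the groups of `X` and of the hypersurfaces
    (∀ X : Sch F, InJ True X → ∃ N m₀ : ℕ, ∀ m : ℕ, m₀ ≤ m →
      ∃ (κ : Type) (_ : Fintype κ) (g : κ → MvPolynomial (Fin (m + N)) F),
        (∀ k, (g k).totalDegree ≤ 2) ∧
        (∀ a b : ℤ, a ≠ 2 * m → a + 1 ≠ 2 * m → Nonempty
          (𝒯.H (cub g) (a + (2 * (N + Fintype.card κ) - 1)) (b + (N + Fintype.card κ - 1)) ≃+
            𝒯.H X a b)) ∧
        (∀ a b : ℤ, a ≠ 2 * m → a + 1 ≠ 2 * m → a + 2 ≠ 2 * m → Nonempty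
          (𝒯.H (sng g) (a + 2 * (N + Fintype.card κ)) (b + (N + Fintype.card κ)) ≃+
            𝒯.H X a b × 𝒯.H X (a + 1) (b + 1)))) ∧
    -- the hypersurfaces are cubic, and the first ones are smooth
    (∀ (s : ℕ) (κ : Type) [Fintype κ] (g : κ → MvPolynomial (Fin s) F),
      (∀ k, (g k).totalDegree ≤ 2) → Smooth (cub g).hom ∧ (bigPoly g).totalDegree ≤ 3 ∧
        (vPoly g).totalDegree ≤ 3) := by
  refine ⟨fun SP h => ?_, 𝒯.p_iff.trans 𝒯.cub_iff, 𝒯.p_iff.trans 𝒯.sng_iff,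
    fun X hX n => 𝒯.one hX n, fun X hX => 𝒯.transfer hX, fun s κ _ g hg =>
    ⟨smooth_cub g, (isSmoothCubic_bigPoly g hg).1, totalDegree_vPoly g hg⟩⟩
  have h1 : (∀ n : ℤ, 2 ≤ n → ∀ X, SP X → ∀ i : ℤ, i ≠ 2 * n → Subsingleton (𝒯.H X i n)) ↔
      ∀ n : ℤ, 2 ≤ n → 𝒯.P n :=
    forall_congr' fun n => imp_congr_right fun _ => h n
  exact ⟨h1.trans (𝒯.p_iff.trans 𝒯.cub_iff), h1.trans (𝒯.p_iff.trans 𝒯.sng_iff)⟩

end Pool.Agent.Results.MP_de59b4_ag.CompactSupportCubicsH3
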