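import Pool.Agent.E8helper65.PG.PnDefs
import Pool.Agent.E8helper65.PG.Main

/-!
# The statements `P^n`, for all `n`, for the smooth projective varieties generated by abelian varieties
# of dimension at most five, and by products of elliptic curves, abelian surfaces and threefolds

An abelian variety over the field with `p ^ a` elements is modelled by `RedAV` (Honda, Tate): a
finite product of CM types `(E i, Φ i)` with Weil numbers `π i ∈ E i` that satisfy the formula of
Shimura and Taniyama; its cohomology of degree `n`, with coefficients in an algebraically closed field
`Ω`, consists of the alternating `n`-forms on the Tate module `Ω ⊗ H_1`, on which the Frobenius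
endomorphism acts by `π`.

We consider (`IsGoodAVP`) the abelian varieties `Y` over finite fields of the following kinds:

* **all abelian varieties of dimension at most five**;
* the abelian varieties that are isogenous, over an algebraic closure, to a product of a supersingular
  abelian variety of any dimension and of abelian varieties of dimension at most three (any number, any
  multiplicity), such that any two factors of dimension three whose CM fields have the same Galois
  closure satisfy one of the following: their fields are Galois over `ℚ`; one of them is supersingular;
  they are isogenous; neither of them is ordinary and their `p`-ranks are not `{1, 2}`. So `Y` may be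
  **any product of elliptic curves and abelian surfaces**, of any dimension.

`Homology Ω V` are data of motivic homology `M X n j = H_n^M(X, ℚ(j)) = CH_j(X, n - 2 j) ⊗ ℚ` (higher
Chow groups) and of `ℓ`-adic homology `E X n j = H_n(X, ℚ_ℓ(j))` of schemes `X : V` of finite type over
finite fields, with the Frobenius and the regulator. Let `𝒢` (`GeneratedD`) be the smallest class of
schemes that contains those with the homology groups of the abelian varieties above, that is closed
under direct summands of finite sums of twists of motives, that contains all of a closed subscheme
`Z` of `X`, `X` and `X ∖ Z` if it contains two of them, and that contains `X` if it contains the base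
change of `X` to a finite extension of the ground field. For example, it contains all products of
curves of genus at most two, the twisted forms of such products, symmetric powers of them, the
varieties dominated by an abelian variety of dimension at most five whose motive is a direct summand,
and the open and the singular varieties that are stratified by such varieties.

**Theorem.** Let `X` be a smooth projective member of `𝒢`, of pure dimension `d`. Then **`P^n` holds for
`X`, for all `n`**: all groups `H^i(X, ℤ(n))`, `i ≠ 2 n`, are torsion groups.

Hence, by the decomposition `K_i(X)_ℚ = ⨁ H^(2 n - i)(X, ℚ(n))`, Parshin's conjecture `K_i(X)_ℚ = 0`,
`i > 0`, holds for these `X`.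

Properties of the theory of cycles that are used for the abelian varieties `Y` (`IsChowS`,
`IsMotivic`): Poincaré duality, the formal properties of correspondences, the nilpotence of
homologically trivial correspondences (Kimura), the operation of the Frobenius endomorphism on higher
Chow groups, the vanishing of the higher rational `K`-groups of a finite field (Quillen), and the
algebraicity of the classes in `AlgS` (theorems of Tate, Markman and Ramón Marí). That all Tate classes
on `Y` are in `AlgS`, and that the conjecture of Tate for `Y` implies the conjecture of Tate and
Beilinson `TB` in all degrees and passes to direct summands and to open and closed subschemes, is in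
the starting files (following Soulé, Geisser, Kahn and Jannsen). New here are the descent along
extensions of the ground field and the application to `P^n`.
-/

set_option autoImplicit false

namespace Pool.Agent.Results.MP_de59b4_ag.GeneratedSmallAbelianH65

open Pool.Agent.W495.TA Pool.Agent.W495.FM Pool.Agent.E8helper65.PG
  Pool.Agent.R937.PG

/-- The statements `P^n` for all smooth projective schemes of pure dimension `d` in the class
generated by the abelian varieties `IsGoodAVP`. -/
theorem result (p : ℕ) [Fact p.Prime] (ν : PadicAlgCl p ≃+* ℂ) (Ω : Type) [Field Ω]
    [IsAlgClosed Ω] [CharZero Ω] (V : Type) (T : Homology Ω V) (hT : IsHomology T) (X : V)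
    (hX : GeneratedD T (IsGoodAbelianP p ν T) X) (hpure : IsPure T X) (d : ℤ)
    (H : ℤ → ℤ → Type) [∀ i n, AddCommGroup (H i n)] (hH : IsMotivicCohomology T X d H) (n : ℤ) :
    P H n := by
  intro i hi x
  obtain ⟨φ, hφ⟩ := hH i n
  refine hφ x ?_
  have hTB := tb_goodD hT hX
  by_contra h0
  have h1 := (hTB (2 * d - i) (d - n)).2.1 1 (fun _ => φ x)
    (linearIndependent_unique_iff.2 h0)
  have h2 := linearIndependent_unique_iff.1 h1
  exact h2 (hpure _ _ (by omega) _ (hT.frob_reg X _ _ (φ x)))

end Pool.Agent.Results.MP_de59b4_ag.GeneratedSmallAbelianH65
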