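import Mathlib
import Pool.Agent.E8helper65.RT.Pn

/-!
# The statements `P^n` for the products of arbitrary varieties with abelian varieties of maximal angle
rank, and so of almost all slope types of all CM fields

Let `K i` (`i` in a finite set) be CM fields, and let `π i` be Weil numbers for `q = p ^ a` that
generate the fields `K i`, such that the only multiplicative relations between the conjugates of the
`π i` and `q` are the trivial ones given by `π * conj π = q` (`MaximalAngleRank`). Let `A` be an
abelian variety over the field with `Q = q ^ s` elements which is isogenous to a product of powers of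
abelian varieties coming from the field with `q` elements, with characteristic polynomials of
Frobenius all of whose roots are conjugates of the `π i` (`IsPolyOf`; `A` is given by its Chow ring,
cohomology and correspondences, `IsAbelian`). Let `Z` be **any** variety over the field with `Q`
elements such that the Frobenius endomorphism of `Z` satisfies, on the motivic cohomology of `A × Z`,
a polynomial with rational coefficients all of whose complex roots `ρ` are unrelated to the fields
`K i` (`Unrelated`): a function `n` on the complex embeddings of `K i` with `n (conj φ) = - n φ` which is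
invariant under all automorphisms of `ℂ` that fix a power of `ρ` is zero. (If the motive of `Z` is
finite-dimensional in the sense of Kimura, for instance if `Z` is dominated by a product of curves,
this is a condition on the Frobenius eigenvalues of the cohomology of `Z`. It holds if a power of each
`ρ` lies in a field linearly disjoint from the normal closures of the `K i`, or in a totally real
field. No form of the Tate conjecture or of Parshin's conjecture is assumed for `Z`.)

**Theorem.** There are finitely many products `D t` of `c t` divisor classes on `A`, depending only on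
`A`, such that `H^i(A × Z, ℚ(j)) = ⨁ D t × H^(i - 2 c t)(Z, ℚ(j - c t))` for all `i` and `j`. Hence
`H^i(A × Z, ℚ(j)) = 0` if and only if `H^(i - 2 k)(Z, ℚ(j - k)) = 0` for all `0 ≤ k ≤ dim A`, and

  **`P^n` holds for `A × Z` if and only if `P^(n - k)` holds for `Z` for all `0 ≤ k ≤ dim A`.**

(`P^m`: the groups `H^i(X, ℤ(m))` with `i ≠ 2 m` are torsion groups.) The same is true for motivic
cohomology with compact supports. As `P^0` and `P^1` are known, `P^2` holds for `A × Z` if and only
if it holds for `Z`. If `Z` is a point it says that `P^n` holds for `A`, for all `n`.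

The second part of the theorem says that the angle rank is maximal for almost all slope types of all
CM fields, so that the theorem applies to them. We fix an isomorphism `ν` of the algebraic closure of
`ℚ_p` with `ℂ`. Let `K i` be pairwise independent CM fields of degree `2 g i` (for `i ≠ k` and all
complex embeddings `φ` of `K i` and `ψ` of `K k` some automorphism of `ℂ` is the identity on
`φ (K i)` and the complex conjugation on `ψ (K k)`), and let `M i` be a function with nonzero
integral values, all of which divide `n i`, on the complex embeddings of `K i`, invariant under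
complex conjugation. A CM type `Φ i` of `K i`, `M i` and a real number `κ ≠ 0` prescribe the slopes
`(a + κ M) / 2` (at the embeddings in `Φ i`) and `(a - κ M) / 2` (outside of `Φ i`) of a Weil number for
`p ^ a` in `K i` (`HasType`). There are `2 ^ (∑ i, g i)` families of CM types. A family is exceptional
(`exceptionalFamilies`) if the theorem above is false for some Weil numbers with these slope types.
The number of the exceptional families is at most
`2 ^ (∑ i, g i) * ∑ i, C * (n i) ^ 2 * rate (K i) (g i) (q i)`, with an absolute constant `C`. Here
`q i` is any prime factor of `g i` (or `q i = 1`), and `rate K g q` is `(1 + log (2 g)) ^ 16` times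
the smaller of the numbers `W (K) / √g` and `√g / q`, where (third part, `WeightEstimate`)
`W (K) ≤ N ^ 2 * D ^ (1 / 4)`; `N` is the number of the CM subfields of `K` and `D` is the largest
degree of a CM subfield of `K` that is normal over `ℚ` with a nonabelian Galois group.

The bound for the number of the types without maximal angle rank is in the starting files
(`Pool/Agent/Y1`). The Kunneth formula is proved as in the starting files (`Pool/Agent/Y156`), where
the abelian varieties are the ones of almost all Weil polynomials and the Frobenius eigenvalues of `Z`
generate a group of small rank; there the slope types are not considered. The proof: the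
nilpotence of homologically trivial correspondences is used only for `A` (theorem of Kimura). A
polynomial in the Frobenius endomorphism of `A` acts on the cohomology of `A` through the part
generated by divisors, and it is invertible on `H^i(A × Z, ℚ(j))`, as there the Frobenius
endomorphisms of `A` and `Z` have the product `Q ^ j`.
-/

set_option autoImplicit false

namespace Pool.Agent.Results.MP_de59b4_ag.TimesUnrelatedH65

open NumberField Module IntermediateField Polynomial Pool.Agent.H204R3.CM Pool.Agent.H977R3.CM
  Pool.Agent.TH170 Pool.Agent.Y1.KN Pool.Agent.Y1.CT Pool.Agent.Y1.TS Pool.Agent.Y137.MV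
  Pool.Agent.E8helper65.RT

/-- The theorem on `P^n` holds for all abelian varieties `A` whose Frobenius eigenvalues are powers of
conjugates of the Weil numbers `π i`, and all `Z` unrelated to the fields `K i`. -/
def HoldsFor (p a : ℕ) {I : Type} (K : I → Type) [∀ i, Field (K i)] (π : ∀ i, K i) : Prop :=
  ∀ f : I → ℤ[X], (∀ i, IsPolyOf (π i) (f i)) → PnTimes (Unrelated K) (p ^ a) f

/-- The exceptional families of CM types. -/
def exceptionalFamilies {p : ℕ} [Fact p.Prime] (ν : PadicAlgCl p ≃+* ℂ) {I : Type} [Fintype I]
    (K : I → Type) [∀ i, Field (K i)] [∀ i, NumberField (K i)] [∀ i, IsCMField (K i)]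
    (M : ∀ i, (K i →+* ℂ) → ℤ) : Set (∀ i, Set (K i →+* ℂ)) :=
  {Φ | (∀ i, IsCMType (Φ i)) ∧ ¬ ForAllWeil ν K M (fun a π => HoldsFor p a K π) Φ}

/-- **`P^n` holds for `A × Z` if and only if `P^(n - k)`, `0 ≤ k ≤ dim A`, hold for `Z`**, for the
abelian varieties `A` of maximal angle rank, hence of almost all slope types of all CM fields, and
all unrelated `Z`. -/
theorem result :
    (∀ (p : ℕ) [Fact p.Prime] (a : ℕ) (_ : 0 < a) (I : Type) [Fintype I] (K : I → Type)
      [∀ i, Field (K i)] [∀ i, NumberField (K i)] [∀ i, IsCMField (K i)] (π : ∀ i, K i),
      (∀ i, ℚ⟮π i⟯ = ⊤) → (∀ i, π i * IsCMField.complexConj (K i) (π i) = (p : K i) ^ a) →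
      MaximalAngleRank (p ^ a) π → HoldsFor p a K π) ∧
    (∃ C : ℝ, 0 ≤ C ∧ ∀ (p : ℕ) [Fact p.Prime] (ν : PadicAlgCl p ≃+* ℂ) (I : Type) [Fintype I]
      (K : I → Type) [∀ i, Field (K i)] [∀ i, NumberField (K i)] [∀ i, IsCMField (K i)]
      (M : ∀ i, (K i →+* ℂ) → ℤ) (n g q : I → ℕ), PairwiseIndep K →
      (∀ i φ, M i (ComplexEmbedding.conjugate φ) = M i φ) → (∀ i, n i ≠ 0) →
      (∀ i φ, M i φ ∣ (n i : ℤ)) → (∀ i, finrank ℚ (K i) = 2 * g i) →
      (∀ i, q i ∣ g i ∧ (q i = 1 ∨ (q i).Prime)) →
      ((exceptionalFamilies ν K M).ncard : ℝ) ≤
        2 ^ (∑ i, g i) * ∑ i, C * (n i : ℝ) ^ 2 * rate (K i) (g i) (q i)) ∧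
    WeightEstimate := by
  have key : ∀ (p : ℕ) [Fact p.Prime] (a : ℕ) (_ : 0 < a) (I : Type) [Fintype I] (K : I → Type)
      [∀ i, Field (K i)] [∀ i, NumberField (K i)] [∀ i, IsCMField (K i)] (π : ∀ i, K i),
      (∀ i, ℚ⟮π i⟯ = ⊤) → (∀ i, π i * IsCMField.complexConj (K i) (π i) = (p : K i) ^ a) →
      MaximalAngleRank (p ^ a) π → HoldsFor p a K π := by
    intro p _ a ha I _ K _ _ _ π _ hw hang f hf
    exact pnTimes (Nat.one_lt_pow ha.ne' (Fact.out : p.Prime).one_lt) (noRel_of_angle hang hw f hf)
      (unrelated_zero K)
  obtain ⟨C, hC0, hC⟩ := ncard_of_angle
  refine ⟨key, ⟨C, hC0, ?_⟩, weight_estimate_holds⟩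
  intro p _ ν I _ K _ _ _ M n g q hind hM hn hMn hg hq
  exact hC p ν I K M n g q hind hM hn hMn hg hq _ fun a π ha hgen hw hang =>
    key p a ha I K π hgen hw hang

end Pool.Agent.Results.MP_de59b4_ag.TimesUnrelatedH65
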