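import Pool.Agent.Q193.LT.Mod
import Pool.Agent.R904.TR.Res

/-!
# Parshin's conjecture and trilinear forms

`WeightTheory k` lists the properties which are used of the rational higher Chow groups
`H^M_a(X, ℚ(b)) = CH_b(X, a - 2b) ⊗ ℚ` (`b` is the dimension of the cycles), of the weight homology
`H^W_a(X, ℚ(b))` of Gillet and Soulé (the homology of the complex of the groups `CH_b ⊗ ℚ` of the terms of the weight
complex of `X`) and of the natural map `γ` between them, for separated schemes `X` of finite type over a finite field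
`k`. For smooth projective `X` the weight homology is `CH_b(X) ⊗ ℚ` for `a = 2b` and zero otherwise, so that `γ` is
bijective in all degrees if and only if `CH_b(X, j) ⊗ ℚ = 0` for all `b` and `j ≠ 0`, that is, if and only if
Parshin's conjecture holds for `X` in all weights. Geisser showed that Parshin's conjecture is equivalent to
the bijectivity of `γ` for all `X`.
-/

set_option autoImplicit false

open CategoryTheory CategoryTheory.Limits AlgebraicGeometry Pool.Agent.Y116.UV Pool.Agent.Z125.UN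
open Pool.Agent.Q193.LT Pool.Agent.R904.CU Pool.Agent.R904.TR

namespace Pool.Agent.Results.MP_de59b4_ag.TrilinearHypersurfacesH75

/-- A long exact sequence `⋯ → A_a(Z) → A_a(X) → A_a(U) → A_{a-1}(Z) → ⋯` -/
structure Les {k : Type} [Field k] (A : ℤ → Sch k → ModuleCat.{0} ℚ) (Z X U : Sch k) where
  /-- `A_a(Z) → A_a(X)` -/
  u : ∀ a, A a Z ⟶ A a X
  /-- `A_a(X) → A_a(U)` -/
  v : ∀ a, A a X ⟶ A a U
  /-- `A_a(U) → A_{a-1}(Z)` -/
  w : ∀ a, A a U ⟶ A (a - 1) Z
  exact_uv : ∀ a, ExactAt (u a) (v a)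
  exact_vw : ∀ a, ExactAt (v a) (w a)
  exact_wu : ∀ a, ExactAt (w a) (u (a - 1))

/-- The maps `φ` are a morphism between two long exact sequences. -/
def Les.Comm {k : Type} [Field k] {A B : ℤ → Sch k → ModuleCat.{0} ℚ} {Z X U : Sch k}
    (φ : ∀ a X, A a X ⟶ B a X) (s : Les A Z X U) (s' : Les B Z X U) : Prop :=
  ∀ a, φ a Z ≫ s'.u a = s.u a ≫ φ a X ∧ φ a X ≫ s'.v a = s.v a ≫ φ a U ∧
    φ a U ≫ s'.w a = s.w a ≫ φ (a - 1) Z

/-- `j` is an open immersion onto the open subscheme of `Spec A` where `f_1, ..., f_m` do not all vanish. -/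
def IsLocus {k A : Type} [Field k] [CommRing A] [Algebra k A] {m : ℕ} (f : Fin m → A) {U : Sch k}
    (j : U ⟶ aff k A) : Prop :=
  IsOpenImmersion j.left ∧ Set.range j.left = {x : PrimeSpectrum A | ∃ l, f l ∉ x.asIdeal}

/-- Rational higher Chow groups and weight homology of the schemes over `k`. -/
structure WeightData (k : Type) [Field k] where
  /-- `CH_b(X, a - 2b) ⊗ ℚ` -/
  M : ℤ → ℤ → Sch k → ModuleCat.{0} ℚ
  /-- the weight homology `H^W_a(X, ℚ(b))` -/
  W : ℤ → ℤ → Sch k → ModuleCat.{0} ℚ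
  /-- the natural maps -/
  γ : ∀ a b X, M a b X ⟶ W a b X

namespace WeightData

variable {k : Type} [Field k] (D : WeightData k)

/-- The map `γ` for `X` in degree `(a, b)` is isomorphic to the one for `Y` in degree `(a', b')`. -/
def Same (a b : ℤ) (X : Sch k) (a' b' : ℤ) (Y : Sch k) : Prop :=
  ∃ (e : D.M a b X ≅ D.M a' b' Y) (e' : D.W a b X ≅ D.W a' b' Y),
    D.γ a b X ≫ e'.hom = e.hom ≫ D.γ a' b' Y

/-- Localization: for a closed subscheme `Z` of `X` with complement `U` there are long exact sequences for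
both theories, compatible with `γ`. -/
def Localization : Prop :=
  ∀ {Z X U : Sch k} (i : Z ⟶ X) (j : U ⟶ X), FT True X → IsTriple i j → ∀ b : ℤ,
    ∃ (s : Les (fun a Y => D.M a b Y) Z X U) (s' : Les (fun a Y => D.W a b Y) Z X U),
      Les.Comm (fun a Y => D.γ a b Y) s s'

/-- Affine bundles: let `U` be the open subscheme of `Spec A` where `f_1, ..., f_m` do not all vanish. The
affine scheme `t_1 f_1 + ... + t_m f_m = 1` is a bundle of affine spaces of dimension `m - 1` over `U`, and its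
maps `γ` are those of `U`, with a shift of `(a, b)` by `(2(m-1), m-1)`. -/
def Bundles : Prop :=
  ∀ (A : Type) [CommRing A] [Algebra k A] [Algebra.FiniteType k A] (m : ℕ) (f : Fin m → A)
    (U : Sch k) (j : U ⟶ aff k A), IsLocus f j → ∀ a b : ℤ,
    D.Same a b U (a + 2 * (m - 1)) (b + (m - 1)) (aff k (Jou f))

/-- `H_a(X × 𝔾_m, b) = H_{a-2}(X, b-1) ⊕ H_{a-1}(X, b)` for `X = Spec A`, for both theories, compatible with
`γ`. -/
def Laurent : Prop :=
  ∀ (A : Type) [CommRing A] [Algebra k A] [Algebra.FiniteType k A] (a b : ℤ),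
    ∃ (e : D.M a b (aff k (LaurentPolynomial A)) ≅
        D.M (a - 2) (b - 1) (aff k A) ⊞ D.M (a - 1) b (aff k A))
      (e' : D.W a b (aff k (LaurentPolynomial A)) ≅
        D.W (a - 2) (b - 1) (aff k A) ⊞ D.W (a - 1) b (aff k A)),
      D.γ a b (aff k (LaurentPolynomial A)) ≫ e'.hom =
        e.hom ≫ biprod.map (D.γ (a - 2) (b - 1) (aff k A)) (D.γ (a - 1) b (aff k A))

/-- `γ` is bijective in all degrees (Geisser's form of Parshin's conjecture). -/
def Bij (X : Sch k) : Prop := ∀ a b, Function.Bijective (D.γ a b X).hom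

/-- Parshin's conjecture for `X` in all weights: `CH_b(X, j) ⊗ ℚ = 0` for all `b` and all `j ≠ 0`. -/
def Parshin (X : Sch k) : Prop := ∀ a b : ℤ, a ≠ 2 * b → Subsingleton (D.M a b X)

end WeightData

/-- Rational higher Chow groups and weight homology of the schemes over `k`: the known properties. -/
structure WeightTheory (k : Type) [Field k] extends WeightData k where
  /-- the maps `γ` depend only on the isomorphism class of `X` -/
  iso : ∀ {X Y : Sch k}, FT True X → Nonempty (X ≅ Y) → ∀ a b, toWeightData.Same a b X a b Y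
  /-- localization -/
  localization : toWeightData.Localization
  /-- homotopy invariance -/
  bundle : toWeightData.Bundles
  /-- the fundamental theorem -/
  laurent : toWeightData.Laurent
  /-- the weight homology of smooth proper schemes: `CH_b(X) ⊗ ℚ` in degree `(2b, b)`, zero otherwise -/
  pure_ne : ∀ X : Sch k, IsProper X.hom → Smooth X.hom → ∀ a b : ℤ, a ≠ 2 * b →
    Subsingleton (toWeightData.W a b X)
  pure_eq : ∀ X : Sch k, IsProper X.hom → Smooth X.hom → ∀ b : ℤ,
    Function.Bijective (toWeightData.γ (2 * b) b X).hom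
  /-- in dimension at most one `γ` is bijective (Harder) -/
  curves : ∀ X : Sch k, FT True X → topologicalKrullDim X.left ≤ 1 → toWeightData.Bij X

namespace WeightTheory

variable {k : Type} [Field k] (D : WeightTheory k)

/-- `Bij` for the smooth separated schemes of dimension at most `d`. -/
def SmoothDim (d : ℕ) : Prop :=
  ∀ X : Sch k, FT True X → Smooth X.hom → topologicalKrullDim X.left ≤ d → D.Bij X

/-- `Bij` for all separated schemes of finite type of dimension at most `d`. -/
def AllDim (d : ℕ) : Prop := ∀ X : Sch k, FT True X → topologicalKrullDim X.left ≤ d → D.Bij X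

/-- Parshin's conjecture for the smooth proper schemes of dimension at most `d`. -/
def ParshinDim (d : ℕ) : Prop :=
  ∀ X : Sch k, IsProper X.hom → Smooth X.hom → topologicalKrullDim X.left ≤ d → D.Parshin X

/-- `Bij` for the hypersurfaces `G(x, y, z) = 1`, where `G` is a trilinear form over `k` in three blocks of
variables, one of which has at most `e` variables. -/
def Block (e : ℕ) : Prop := ∀ (a b c : ℕ) (G : Fin a → Fin b → Fin c → k),
  (a ≤ e ∨ b ≤ e ∨ c ≤ e) → D.Bij (hypS G)

/-- `Bij` for the hypersurfaces `G(x, y, z) = 1`, where all coefficients of `G` are `0` or `1`. -/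
def ZeroOne : Prop := ∀ (a b c : ℕ) (G : Fin a → Fin b → Fin c → k),
  (∀ i j l, G i j l = 0 ∨ G i j l = 1) → D.Bij (hypS G)

lemma bij_iff {A B C E : ModuleCat.{0} ℚ} {f : A ⟶ B} {g : C ⟶ E} (e : A ≅ C) (e' : B ≅ E)
    (h : f ≫ e'.hom = e.hom ≫ g) : Function.Bijective f.hom ↔ Function.Bijective g.hom := by
  rw [Pool.Agent.Q193.LT.bij_iff, Pool.Agent.Q193.LT.bij_iff]
  constructor
  · intro h1
    have h2 : g = e.inv ≫ f ≫ e'.hom := by rw [h, Iso.inv_hom_id_assoc]
    rw [h2]
    infer_instance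
  · intro h1
    have h2 : f = e.hom ≫ g ≫ e'.inv := by
      rw [← Category.assoc, ← h, Category.assoc, Iso.hom_inv_id, Category.comp_id]
    rw [h2]
    infer_instance

lemma w_iso {X Y : Sch k} (hX : FT True X) (h : Nonempty (X ≅ Y)) (hD : D.Bij X) : D.Bij Y := by
  intro a b
  obtain ⟨e, e', h1⟩ := D.iso hX h a b
  exact (bij_iff e e' h1).mp (hD a b)

lemma sq' {P Q P' Q' : ModuleCat.{0} ℚ} {f : P ⟶ Q} {g : Q ⟶ Q'} {f' : P ⟶ P'} {g' : P' ⟶ Q'}
    (h : f ≫ g = f' ≫ g') : g.hom ∘ₗ f.hom = g'.hom ∘ₗ f'.hom := by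
  rw [← ModuleCat.hom_comp, ← ModuleCat.hom_comp, h]

section loc

variable {Z X U : Sch k} (i : Z ⟶ X) (j : U ⟶ X) (hX : FT True X) (ht : IsTriple i j)

include hX ht

lemma w_total (hZ : D.Bij Z) (hU : D.Bij U) : D.Bij X := by
  intro a' b
  obtain ⟨a, rfl⟩ : ∃ a, a' = a - 1 := ⟨a' + 1, by ring⟩
  obtain ⟨s, s', c⟩ := D.localization i j hX ht b
  exact LinearMap.bijective_of_surjective_of_bijective_of_bijective_of_injective (s.w a).hom
    (s.u (a - 1)).hom (s.v (a - 1)).hom (s.w (a - 1)).hom (s'.w a).hom (s'.u (a - 1)).hom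
    (s'.v (a - 1)).hom (s'.w (a - 1)).hom (D.γ a b U).hom (D.γ (a - 1) b Z).hom
    (D.γ (a - 1) b X).hom (D.γ (a - 1) b U).hom (D.γ (a - 1 - 1) b Z).hom (sq' (c a).2.2)
    (sq' (c _).1) (sq' (c _).2.1) (sq' (c _).2.2) (s.exact_wu _) (s.exact_uv _) (s.exact_vw _)
    (s'.exact_wu _) (s'.exact_uv _) (s'.exact_vw _) (hU _ _).2 (hZ _ _) (hU _ _) (hZ _ _).1

lemma w_opened (hZ : D.Bij Z) (hX' : D.Bij X) : D.Bij U := by
  intro a b
  obtain ⟨s, s', c⟩ := D.localization i j hX ht b
  exact LinearMap.bijective_of_surjective_of_bijective_of_bijective_of_injective (s.u a).hom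
    (s.v a).hom (s.w a).hom (s.u (a - 1)).hom (s'.u a).hom (s'.v a).hom
    (s'.w a).hom (s'.u (a - 1)).hom (D.γ a b Z).hom (D.γ a b X).hom
    (D.γ a b U).hom (D.γ (a - 1) b Z).hom (D.γ (a - 1) b X).hom (sq' (c a).1)
    (sq' (c _).2.1) (sq' (c _).2.2) (sq' (c _).1) (s.exact_uv _) (s.exact_vw _) (s.exact_wu _)
    (s'.exact_uv _) (s'.exact_vw _) (s'.exact_wu _) (hZ _ _).2 (hX' _ _) (hZ _ _) (hX' _ _).1

lemma w_closed (hX' : D.Bij X) (hU : D.Bij U) : D.Bij Z := by
  intro a' b
  obtain ⟨a, rfl⟩ : ∃ a, a' = a - 1 := ⟨a' + 1, by ring⟩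
  obtain ⟨s, s', c⟩ := D.localization i j hX ht b
  exact LinearMap.bijective_of_surjective_of_bijective_of_bijective_of_injective (s.v a).hom
    (s.w a).hom (s.u (a - 1)).hom (s.v (a - 1)).hom (s'.v a).hom (s'.w a).hom
    (s'.u (a - 1)).hom (s'.v (a - 1)).hom (D.γ a b X).hom (D.γ a b U).hom
    (D.γ (a - 1) b Z).hom (D.γ (a - 1) b X).hom (D.γ (a - 1) b U).hom (sq' (c a).2.1)
    (sq' (c _).2.2) (sq' (c _).1) (sq' (c _).2.1) (s.exact_vw _) (s.exact_wu _) (s.exact_uv _)
    (s'.exact_vw _) (s'.exact_wu _) (s'.exact_uv _) (hX' _ _).2 (hU _ _) (hX' _ _) (hU _ _).1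

end loc

lemma w_bundle {A : Type} [CommRing A] [Algebra k A] [Algebra.FiniteType k A] {m : ℕ}
    (f : Fin m → A) (U : Sch k) (j : U ⟶ aff k A) (hj : IsOpenImmersion j.left)
    (hr : Set.range j.left = {x : PrimeSpectrum A | ∃ l, f l ∉ x.asIdeal}) :
    D.Bij U ↔ D.Bij (aff k (Jou f)) := by
  constructor
  · intro h a' b'
    obtain ⟨a, rfl⟩ : ∃ a, a' = a + 2 * ((m : ℤ) - 1) := ⟨a' - 2 * ((m : ℤ) - 1), by ring⟩
    obtain ⟨b, rfl⟩ : ∃ b, b' = b + ((m : ℤ) - 1) := ⟨b' - ((m : ℤ) - 1), by ring⟩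
    obtain ⟨e, e', h1⟩ := D.bundle A m f U j ⟨hj, hr⟩ a b
    exact (bij_iff e e' h1).mp (h a b)
  · intro h a b
    obtain ⟨e, e', h1⟩ := D.bundle A m f U j ⟨hj, hr⟩ a b
    exact (bij_iff e e' h1).mpr (h _ _)

lemma w_torus {A : Type} [CommRing A] [Algebra k A] [Algebra.FiniteType k A]
    (h : D.Bij (aff k (LaurentPolynomial A))) : D.Bij (aff k A) := by
  intro a' b
  obtain ⟨a, rfl⟩ : ∃ a, a' = a - 1 := ⟨a' + 1, by ring⟩
  obtain ⟨e, e', h1⟩ := D.laurent A a b
  have h2 := (bij_iff e e' h1).mp (h a b)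
  rw [Pool.Agent.Q193.LT.bij_iff] at h2 ⊢
  refine ⟨biprod.inr ≫ inv (biprod.map (D.γ (a - 2) (b - 1) (aff k A)) (D.γ (a - 1) b (aff k A))) ≫
    biprod.snd, ?_, ?_⟩
  · rw [← Category.assoc, ← biprod.inr_map, Category.assoc, IsIso.hom_inv_id_assoc, biprod.inr_snd]
  · rw [Category.assoc, Category.assoc, ← biprod.map_snd, IsIso.inv_hom_id_assoc, biprod.inr_snd]

lemma w_field : D.Bij (aff k k) := by
  refine D.curves _ (ft_aff True) ?_
  rw [topDim_aff, ringKrullDim_eq_zero_of_field]
  exact zero_le_one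

lemma bnd : Bnd True D.Bij where
  iso hX h hD := D.w_iso hX h hD
  total i j hX ht hZ hU := D.w_total i j hX ht hZ hU
  opened i j hX ht hZ hX' := D.w_opened i j hX ht hZ hX'
  closed i j hX ht hX' hU := D.w_closed i j hX ht hX' hU
  space n := D.w_iso (ft_aff True) ⟨(affIso (jouOne k n)).symm⟩
    ((D.w_bundle (f1 k n) (aff k k) (𝟙 _) inferInstance (range_id n)).mp D.w_field)
  jouanolou _ _ _ _ _ f U j hj hr h := (D.w_bundle f U j hj hr).mpr h
  torus _ _ _ _ h := D.w_torus h
  bundle _ _ _ _ _ f U j hj hr h := (D.w_bundle f U j hj hr).mp h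

/-- For smooth proper schemes `γ` is bijective in all degrees if and only if Parshin's conjecture holds. -/
lemma bij_iff_parshin {X : Sch k} (hp : IsProper X.hom) (hs : Smooth X.hom) :
    D.Bij X ↔ D.Parshin X := by
  constructor
  · intro h a b hab
    have := D.pure_ne X hp hs a b hab
    exact (h a b).1.subsingleton
  · intro h a b
    by_cases hab : a = 2 * b
    · subst hab
      exact D.pure_eq X hp hs b
    · have h1 := D.pure_ne X hp hs a b hab
      have h2 := h a b hab
      exact ⟨Function.injective_of_subsingleton _, fun y => ⟨0, Subsingleton.elim _ _⟩⟩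

end WeightTheory

/-- Let `k` be a finite field. (1) For every `d`, the bijectivity of the maps `γ` in all degrees for all smooth
schemes of dimension at most `d`, for all schemes of dimension at most `d`, and for the smooth hypersurfaces
`G(x, y, z) = 1` with a block of at most `d + 2` variables are equivalent; and they imply Parshin's conjecture
for all smooth proper schemes of dimension at most `d`. (2) They are true for all hypersurfaces
`G(x, y, z) = 1` with a block of at most three variables. (3) If `k` is a prime field, then they are true for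
all schemes if and only if they are true for the `G(x, y, z) = 1` with coefficients `0` and `1`. (4) For
smooth proper schemes the bijectivity of the maps `γ` is Parshin's conjecture. (5) The hypersurfaces
`G(x, y, z) = 1` are smooth. -/
theorem result (k : Type) [Field k] [Finite k] (D : WeightTheory k) :
    (∀ d : ℕ, (D.SmoothDim d ↔ D.Block (d + 2)) ∧ (D.AllDim d ↔ D.Block (d + 2)) ∧
      (D.Block (d + 2) → D.ParshinDim d)) ∧
    D.Block 3 ∧
    (Function.Surjective (Int.cast : ℤ → k) → ((∀ X : Sch k, FT True X → D.Bij X) ↔ D.ZeroOne)) ∧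
    (∀ X : Sch k, IsProper X.hom → Smooth X.hom → (D.Bij X ↔ D.Parshin X)) ∧
    ∀ (a b c : ℕ) (G : Fin a → Fin b → Fin c → k), Smooth (hypS G).hom := by
  have hB := D.bnd
  have h1 : ∀ d : ℕ, D.SmoothDim d ↔ D.Block (d + 2) := fun d => smooth_iff hB d
  have h2 : ∀ d : ℕ, D.AllDim d ↔ D.Block (d + 2) := fun d => dim_iff hB d
  refine ⟨fun d => ⟨h1 d, h2 d, fun h X hX hs hd => ?_⟩, ?_, fun hk =>
    ⟨fun h a b c G _ => h _ (ft_aff True), fun h X hX => ?_⟩, fun X hX hs => D.bij_iff_parshin hX hs,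
    fun a b c G => ?_⟩
  · have : FT True X := ⟨inferInstance, inferInstance, fun _ => inferInstance⟩
    exact (D.bij_iff_parshin hX hs).mp ((h1 d).mpr h X this hs hd)
  · refine (h2 1).mp fun X hX hd => D.curves X hX ?_
    exact_mod_cast hd
  · exact universal hB.toUni (S := {0, 1}) (Or.inl rfl) (Or.inr rfl)
      (fun a b c G hG => h a b c G fun i j l => hG i j l) (presents_zero_one hk) X hX
  · exact smooth_aff (hyp_smooth G)

end Pool.Agent.Results.MP_de59b4_ag.TrilinearHypersurfacesH75
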